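import Pool.Agent.W574.RO.Defs
import Pool.Agent.Y230.TH.TopDefs

set_option autoImplicit false

/-! # Motivic zeta functions of the Thom-Sebastiani sums `∑ y_j f_j(x) + g(z)`

`M` is a commutative ring with a unit `L`. The main example is `M = K₀(Var_ℂ)[1/L]`, the
Grothendieck ring of complex varieties, localized at the class `L` of the affine line. The variable
of the ring `M⟦X⟧` is denoted by `T` in the comments. All motivic volumes are normalized such that
the set of all arcs of the affine space has the volume `1`. We use the following two series.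

* For an ideal `I` of `ℂ[x₁, …, x_n]`: the series `Z_I = ∑_k μ(ord I = k) T^k`, where
  `μ(ord I = k)` is the volume of the set of the arcs `φ` of `ℂ^n` with `ord φ^* I = k`.
* For a polynomial `F` (a principal ideal) in addition the series
  `J_F = ∑_d μ(F ≡ t^d mod t^(d + 1)) T^d`. The set of the `d`-jets `φ` with `F(φ) = t^d` modulo
  `t^(d + 1)` has the class `L^((d + 1) n) μ(F ≡ t^d mod t^(d + 1))`, so that the motivic zeta
  function `∑_d [X_{d,1}] L^(-n d) T^d` of `F` is `L^n J_F`. -/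

namespace Pool.Agent.T2H42.TSM

open MvPolynomial Pool.Agent.W574.SM Pool.Agent.W574.CN Pool.Agent.W574.MO Pool.Agent.W574.RO
  Pool.Agent.Y230.TH

variable {M : Type} [CommRing M]

/-- `PlaneTot L f τ Z`: as `PlaneMot L f Z`, that is, the series `Z` is a sum
`u₀ + ∑_i w_i (L - 1) L⁻¹ T^(m_i) / (1 - L⁻¹ T^(m_i)) + ∑_{P ∈ S} Z_P`, where the `m_i` are
multiplicities of curves in the zero locus of the ideal `(f_j)` of `ℂ[u, v]` and `Z_P` is the
contribution of the point `P`, see `MotLocal`; and in addition `u₀ + ∑_i w_i + |S| = τ`. So `Z` is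
the contribution of a subset of the plane with the class `τ` to the sum over the strata of a
resolution of the ideal. -/
def PlaneTot {ι : Type} (L : Mˣ) (f : ι → MvPolynomial (Fin 2) ℂ) (τ : M) (Z : PowerSeries M) :
    Prop :=
  ∃ (u₀ : M) (r : ℕ) (h : Fin r → MvPolynomial (Fin 2) ℂ) (m : Fin r → ℕ) (w : Fin r → M)
    (S : Finset (Fin 2 → ℂ)) (ZP : (Fin 2 → ℂ) → PowerSeries M),
    (∀ i, IsCurve f (h i) (m i)) ∧
    (∀ P ∈ S, MotLocal L (fun j => translate P (f j)) 0 1 0 1 (ZP P)) ∧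
    u₀ + ∑ i, w i + (S.card : M) = τ ∧
    Z = PowerSeries.C u₀ + ∑ i, PowerSeries.C (w i) * mf L (m i) 1 + ∑ P ∈ S, ZP P

/-- The series `Z_I` of an ideal `I` which is generated by forms `f_j` of degree `d` in three
variables: `Z_I = L⁻³ (L - 1) Z_J / (1 - L⁻³ T^d)`, see `ConeJetMot` and `ProjMot`, where `Z_J` is
the sum of the contributions of the points of the projective plane with `x₀ ≠ 0` (a set with the
class `L²`), with `x₀ = 0`, `x₁ ≠ 0` (with the class `L`) and `x₀ = x₁ = 0` (with the class `1`). -/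
def ConeVol {ι : Type} (L : Mˣ) (f : ι → MvPolynomial (Fin 3) ℂ) (d : ℕ) (Z : PowerSeries M) :
    Prop :=
  ∃ Z₀ Z₁ Z₂ : PowerSeries M,
    PlaneTot L (fun j => deh 0 (f j)) ((L : M) ^ 2) Z₀ ∧
    PlaneTot L (fun j => deh 1 (f j)) (L : M) Z₁ ∧
    PlaneTot L (fun j => deh 2 (f j)) 1 Z₂ ∧
    Z = PowerSeries.C (((L⁻¹ ^ 3 : Mˣ) : M) * ((L : M) - 1)) * (Z₀ + Z₁ + Z₂) * geo L d 3

/-- The volume `μ(ord I ≥ e) = 1 - ∑_{k < e} μ(ord I = k)`. -/
noncomputable def volGe (Z : PowerSeries M) (e : ℕ) : M :=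
  1 - ∑ k ∈ Finset.range e, PowerSeries.coeff k Z

/-- The volume `μ(ord F ≥ e)` for `F = ∑ y_j f_j(x) + g(z)`, where `Z`, `W` are the series of the
ideal `I = (f_j)` and of `g`. If `ord I = k` at the arc `x(t)`, then `∑ y_j f_j(x(t))` is uniformly
distributed in `t^k ℂ⟦t⟧`. So for `k < e` one has `ord F ≥ e` if and only if `ord g ≥ k` and the
`e - k` coefficients of `∑ y_j f_j` in the degrees `k, …, e - 1` are those of `-g`; and
for `ord I ≥ e` one has `ord F ≥ e` if and only if `ord g ≥ e`. -/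
noncomputable def tsGe (L : Mˣ) (Z W : PowerSeries M) (e : ℕ) : M :=
  ∑ k ∈ Finset.range e, PowerSeries.coeff k Z * volGe W k * ((L⁻¹ ^ (e - k) : Mˣ) : M) +
    volGe Z e * volGe W e

/-- The series `∑_e μ(ord F = e) T^e` for `F = ∑ y_j f_j(x) + g(z)`, see `tsGe`. -/
noncomputable def tsOrd (L : Mˣ) (Z W : PowerSeries M) : PowerSeries M :=
  PowerSeries.mk fun e => tsGe L Z W e - tsGe L Z W (e + 1)

/-- The series `∑_d μ(F ≡ t^d mod t^(d + 1)) T^d` for `F = ∑ y_j f_j(x) + g(z)`, where `Z` is the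
series of the ideal `I = (f_j)` and `W`, `J` are the two series of `g`. If `ord I = k ≤ d` at the
arc `x(t)`, the condition is that `ord g ≥ k` and that the `d + 1 - k` coefficients of `∑ y_j f_j`
in the degrees `k, …, d` are those of `t^d - g`; if `ord I ≥ d + 1`, it is `g ≡ t^d` modulo
`t^(d + 1)`. -/
noncomputable def tsJet (L : Mˣ) (Z W J : PowerSeries M) : PowerSeries M :=
  PowerSeries.mk fun d =>
    ∑ k ∈ Finset.range (d + 1),
        PowerSeries.coeff k Z * volGe W k * ((L⁻¹ ^ (d + 1 - k) : Mˣ) : M) +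
      volGe Z (d + 1) * PowerSeries.coeff d J

/-- The polynomial `c ∏ᵢ (z - a_i)^(m_i)` in one variable. -/
noncomputable def onePoly {r : ℕ} (c : ℂ) (a : Fin r → ℂ) (m : Fin r → ℕ) :
    MvPolynomial (Fin 1) ℂ :=
  C c * ∏ i, (X 0 - C (a i)) ^ m i

/-- The series `∑_k μ(ord g = k) T^k` of the polynomial `g = c ∏ᵢ (z - a_i)^(m_i)` with `r` different
roots: the arcs `z(t)` with `z(0) ≠ a_i` for all `i` have the volume `1 - r L⁻¹`, and the volume of
`ord (z - a_i) = k` is `(L - 1) L^(-k - 1)`. -/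
noncomputable def oneOrd (L : Mˣ) {r : ℕ} (m : Fin r → ℕ) : PowerSeries M :=
  PowerSeries.C (1 - (r : M) * ((L⁻¹ : Mˣ) : M)) +
    ∑ i, PowerSeries.C ((L⁻¹ : Mˣ) : M) * mf L (m i) 1

/-- The series `∑_d μ(g ≡ t^d mod t^(d + 1)) T^d` of `g = c ∏ᵢ (z - a_i)^(m_i)`: for `d = 0` the
volume is `L⁻¹` times the number of the roots of `g = 1`, and for `d = k m_i` the arcs
`z = a_i + u t^k + …`, where `u` is one of the `m_i` roots of
`c ∏_{j ≠ i} (a_i - a_j)^(m_j) u^(m_i) = 1`, have the volume `m_i L^(-k - 1)`; so `J_g` is the sum of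
these numbers and of the series `m_i L⁻¹ (L⁻¹ T^(m_i)) / (1 - L⁻¹ T^(m_i))`. -/
noncomputable def oneJet (L : Mˣ) {r : ℕ} (c : ℂ) (a : Fin r → ℂ) (m : Fin r → ℕ) :
    PowerSeries M :=
  PowerSeries.C (({z : ℂ | c * ∏ i, (z - a i) ^ m i = 1}.ncard : M) * ((L⁻¹ : Mˣ) : M)) +
    ∑ i, PowerSeries.C ((m i : M) * ((L⁻¹ : Mˣ) : M)) *
      (PowerSeries.C ((L⁻¹ : Mˣ) : M) * PowerSeries.X ^ m i * geo L (m i) 1)

/-- Two classes: `Cls L false A Z 0` says that the ideal generated by the family `A` belongs to the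
first class and that `Z` is its series `Z_I`; `Cls L true A Z J` says that the family `A` has one
member `F`, which belongs to the second class, and that `Z`, `J` are the series `Z_F`, `J_F`. The
classes are the smallest ones with the following properties. -/
inductive Cls (L : Mˣ) : Bool → Fam → PowerSeries M → PowerSeries M → Prop
  /-- any non-zero ideal of `ℂ[x₁, x₂]` -/
  | plane (r : ℕ) (f : Fin r → MvPolynomial (Fin 2) ℂ) (hf : ∃ j, f j ≠ 0) (Z : PowerSeries M)
      (hZ : PlaneVol L f Z) : Cls L false ⟨Fin 2, Fin r, f⟩ Z 0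
  /-- the ideals generated by forms of the same degree in three variables, such that the Jacobian
  determinant of some three generators does not vanish -/
  | cone (r d : ℕ) (hd : 1 ≤ d) (f : Fin r → MvPolynomial (Fin 3) ℂ)
      (hf : ∀ j, (f j).IsHomogeneous d) (e : Fin 3 → Fin r)
      (he : (Matrix.of fun s t => pderiv s (f (e t))).det ≠ 0) (Z : PowerSeries M)
      (hZ : ConeVol L f d Z) : Cls L false ⟨Fin 3, Fin r, f⟩ Z 0
  /-- the sum of two ideals in disjoint sets of variables -/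
  | sum (A B : Fam) (Z W : PowerSeries M) (hA : Cls L false A Z 0) (hB : Cls L false B W 0) :
      Cls L false (A.sum B) (sumSeries Z W) 0
  /-- the product of two ideals in disjoint sets of variables -/
  | mul (A B : Fam) (Z W : PowerSeries M) (hA : Cls L false A Z 0) (hB : Cls L false B W 0) :
      Cls L false (A.mul B) (Z * W) 0
  /-- a principal ideal -/
  | hyp (A : Fam) (Z J : PowerSeries M) (hA : Cls L true A Z J) : Cls L false A Z 0
  /-- non-constant polynomials `g(z)` in one variable -/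
  | one (r : ℕ) (hr : 1 ≤ r) (c : ℂ) (hc : c ≠ 0) (a : Fin r → ℂ) (ha : Function.Injective a)
      (m : Fin r → ℕ) (hm : ∀ i, 1 ≤ m i) :
      Cls L true ⟨Fin 1, Fin 1, fun _ => onePoly c a m⟩ (oneOrd L m) (oneJet L c a m)
  /-- the polynomials `F = ∑ y_j f_j(x)`: for `ord I = k` the volume of `ord F = e` is
  `(1 - L⁻¹) L^(-(e - k))` for `e ≥ k`, and the one of `F ≡ t^d mod t^(d + 1)` is
  `L^(-(d + 1 - k))` for `d ≥ k` -/
  | form (A : Fam) (Z : PowerSeries M) (hA : Cls L false A Z 0) :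
      Cls L true (univFam A) (PowerSeries.C (1 - ((L⁻¹ : Mˣ) : M)) * Z * geo L 1 1)
        (PowerSeries.C ((L⁻¹ : Mˣ) : M) * Z * geo L 1 1)
  /-- the polynomials `F = ∑ y_j f_j(x) + g(z)` -/
  | ts (A : Fam) (Z : PowerSeries M) (τ : Type) (g : MvPolynomial τ ℂ) (W J : PowerSeries M)
      (hA : Cls L false A Z 0) (hg : Cls L true ⟨τ, Fin 1, fun _ => g⟩ W J) :
      Cls L true (tsFam A τ g) (tsOrd L Z W) (tsJet L Z W J)
  /-- the polynomials `(∑ y_j f_j(x)) h(z)`: the orders are added, and since the first non-zero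
  coefficient of `∑ y_j f_j(x)` is uniformly distributed in `ℂ ∖ 0`, the series `J` is the product
  of the series `J` of `∑ y_j f_j(x)` and the series `∑ μ(ord h = k) T^k` -/
  | formMul (A : Fam) (Z : PowerSeries M) (B : Fam) (W J : PowerSeries M)
      (hA : Cls L false A Z 0) (hB : Cls L true B W J) :
      Cls L true ((univFam A).mul B) (PowerSeries.C (1 - ((L⁻¹ : Mˣ) : M)) * Z * geo L 1 1 * W)
        (PowerSeries.C ((L⁻¹ : Mˣ) : M) * Z * geo L 1 1 * W)
  /-- the variables and the generators may be indexed differently -/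
  | equiv (c : Bool) (A B : Fam) (i : A.σ ≃ B.σ) (k : A.ι ≃ B.ι)
      (h : ∀ j, B.f (k j) = rename i (A.f j)) (Z J : PowerSeries M) (hA : Cls L c A Z J) :
      Cls L c B Z J

end Pool.Agent.T2H42.TSM
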