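import Pool.Agent.T2H42.TSM.Defs
import Pool.Agent.W574.RO.Main
import Pool.Agent.W574.MO.Cone
import Pool.Agent.Y230.TH.Top

set_option autoImplicit false
set_option linter.unusedSectionVars false
set_option linter.unusedVariables false

/-! # The denominators of the motivic zeta functions of Thom-Sebastiani sums -/

namespace Pool.Agent.T2H42.TSM

open MvPolynomial Pool.Agent.W574.SM Pool.Agent.W574.CN Pool.Agent.W574.MO Pool.Agent.W574.RO
  Pool.Agent.W574.HS Pool.Agent.Y230.PS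
open Pool.Agent.Y230.TH (univFam tsFam fm_one fm_univ fm_mul fm_mulL fm_mulR fm_equiv fm_ts tsFam_ne
  univFam_ne dl_eq)

variable {M : Type} [CommRing M] {L : Mˣ}

/-- the denominators which are allowed for the reduced series: `-n/a` is a root, and a double root
if `-n/a = -1` -/
def KH {σ ι : Type} [Fintype ι] (f : ι → MvPolynomial σ ℂ) (a n : ℕ) : Prop :=
  FM f (-(n : ℂ) / a) (1 + Pool.Agent.Y230.TH.dl (-(n : ℂ) / a))

theorem KF_of_KH {σ ι : Type} [Fintype ι] {f : ι → MvPolynomial σ ℂ} {a n : ℕ} (h : KH f a n) :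
    KF f a n := by
  classical
  exact (fm_one f _).1 (h.mono (Nat.le_add_right _ _))

theorem mem_KF {σ ι : Type} [Fintype ι] {f : ι → MvPolynomial σ ℂ} {Z : PowerSeries M}
    (h : Z ∈ DenRing L (KH f)) : Z ∈ DenRing L (KF f) :=
  denRing_mono (fun _ _ _ _ h => KF_of_KH h) h

/-- the properties of the members of the classes -/
structure Inv (L : Mˣ) (c : Bool) (A : Fam) (Z J : PowerSeries M) : Prop where
  fin : Finite A.σ
  ne : ∃ j, A.f j ≠ 0
  vol : tail 1 Z ∈ DenRing L (KF A.f)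
  one : c = true → FM A.f (-1) 1
  red : c = true → PowerSeries.C (L : M) * (tail 1 Z - Z) - tail 1 Z ∈ DenRing L (KH A.f)
  jet : c = true → J - PowerSeries.C ((L⁻¹ : Mˣ) : M) * tail 1 Z ∈ DenRing L (KH A.f)

theorem CqL : (PowerSeries.C ((L⁻¹ : Mˣ) : M) : PowerSeries M) * PowerSeries.C (L : M) = 1 := by
  rw [← map_mul, ← Units.val_mul, inv_mul_cancel, Units.val_one, map_one]

theorem geo11 : (1 - PowerSeries.C ((L⁻¹ : Mˣ) : M) * PowerSeries.X) * geo L 1 1 =
    (1 : PowerSeries M) := by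
  have := geo_mul L (le_refl 1) 1
  rw [qq, pow_one, pow_one] at this
  exact this

/-- the series of the volumes from the reduced series -/
theorem tail_of_red (Z : PowerSeries M) : tail 1 Z =
    (1 + PowerSeries.C ((L⁻¹ : Mˣ) : M) * PowerSeries.X *
      (PowerSeries.C (L : M) * (tail 1 Z - Z) - tail 1 Z)) * geo L 1 1 := by
  have h1 := tail_eq (1 : M) Z
  rw [map_one] at h1
  have h2 := CqL (M := M) (L := L)
  have h3 := geo11 (M := M) (L := L)
  linear_combination (geo L 1 1) * h1 - (geo L 1 1 * PowerSeries.X * (tail 1 Z - Z)) * h2 -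
    tail 1 Z * h3

theorem vol_of_red {A : Fam} {Z : PowerSeries M} (h1 : FM A.f (-1) 1)
    (h : PowerSeries.C (L : M) * (tail 1 Z - Z) - tail 1 Z ∈ DenRing L (KH A.f)) :
    tail 1 Z ∈ DenRing L (KF A.f) := by
  rw [tail_of_red (L := L) Z]
  refine (DenRing L _).mul_mem ((DenRing L _).add_mem (DenRing L _).one_mem
    ((DenRing L _).mul_mem ((DenRing L _).mul_mem (C_mem _) X_mem) (mem_KF h)))
    (geo_mem le_rfl le_rfl ?_)
  rw [KF, Nat.cast_one, div_one]
  exact (fm_one _ _).1 h1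

theorem planeTot_tail {ι : Type} [Fintype ι] (f : ι → MvPolynomial (Fin 2) ℂ) (τ : M)
    (Z : PowerSeries M) (hZ : PlaneTot L f τ Z) : tail τ Z ∈ DenRing L (KF f) := by
  classical
  obtain ⟨u₀, r', h, m, w, S, ZP, hC, hP, htot, rfl⟩ := hZ
  have e : τ = u₀ + ∑ i, w i * 1 + ∑ P ∈ S, (1 : M) := by
    rw [Finset.sum_congr rfl fun i _ => mul_one (w i), Finset.sum_const, nsmul_eq_mul,
      mul_one, htot]
  rw [e, tail_add, tail_add, tail_sum, tail_sum]
  refine (DenRing L _).add_mem ((DenRing L _).add_mem ?_ ?_) ?_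
  · rw [tail_C]
    exact C_mem _
  · refine Subring.sum_mem _ fun i _ => ?_
    rw [tail_C_mul]
    refine (DenRing L _).mul_mem (C_mem _) (tail_mf_mem (m i) (hC i).2.1 ?_)
    intro b hb
    have := curve_root f b hb (h i) (m i) (hC i)
    rw [Nat.cast_one]
    exact this
  · exact Subring.sum_mem _ fun P hPS => point_forced L f P (ZP P) (hP P hPS)

theorem tail_cone (Z' : PowerSeries M) (d : ℕ) (hd : 1 ≤ d) :
    tail 1 (PowerSeries.C (((L⁻¹ ^ 3 : Mˣ) : M) * ((L : M) - 1)) * Z' * geo L d 3) =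
      geo L d 3 * (PowerSeries.C ((L⁻¹ ^ 3 : Mˣ) : M) * (∑ i ∈ Finset.range d, PowerSeries.X ^ i) +
        PowerSeries.C (((L⁻¹ ^ 3 : Mˣ) : M) * ((L : M) - 1)) *
          tail ((L : M) ^ 2 + (L : M) + 1) Z') := by
  symm
  apply eq_tail
  have h1 := geom_sum_mul (PowerSeries.X : PowerSeries M) d
  have h2 := geo_mul (M := M) L hd 3
  have h3 := tail_eq ((L : M) ^ 2 + (L : M) + 1) Z'
  have h4 : (PowerSeries.C ((L⁻¹ ^ 3 : Mˣ) : M) : PowerSeries M) * PowerSeries.C (L : M) ^ 3 = 1 := by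
    rw [← map_pow, ← map_mul, ← Units.val_pow_eq_pow_val, ← Units.val_mul, ← mul_pow,
      inv_mul_cancel, one_pow, Units.val_one, map_one]
  rw [qq] at h2
  simp only [map_mul, map_sub, map_add, map_pow, map_one] at h3 ⊢
  linear_combination (-(geo L d 3 * PowerSeries.C ((L⁻¹ ^ 3 : Mˣ) : M))) * h1 + h2 +
    (geo L d 3 * PowerSeries.C ((L⁻¹ ^ 3 : Mˣ) : M) * (PowerSeries.C (L : M) - 1)) * h3 +
    geo L d 3 * h4

theorem cone_tail {r d : ℕ} (hd : 1 ≤ d) (f : Fin r → MvPolynomial (Fin 3) ℂ)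
    (hf : ∀ j, (f j).IsHomogeneous d) (e : Fin 3 → Fin r)
    (he : (Matrix.of fun s t => pderiv s (f (e t))).det ≠ 0) (Z : PowerSeries M)
    (hZ : ConeVol L f d Z) : tail 1 Z ∈ DenRing L (KF f) := by
  classical
  obtain ⟨Z₀, Z₁, Z₂, h0, h1, h2, rfl⟩ := hZ
  rw [tail_cone _ d hd, tail_add, tail_add]
  have key : ∀ (i : Fin 3) (τ : M) (Z : PowerSeries M), PlaneTot L (fun j => deh i (f j)) τ Z →
      tail τ Z ∈ DenRing L (KF f) := by
    intro i τ Z hZ
    refine denRing_mono (fun a n _ _ h => ?_) (planeTot_tail _ τ Z hZ)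
    exact fun b hb => h b (functionalEq_deh i f d hf b hb)
  refine (DenRing L _).mul_mem (geo_mem hd (by norm_num) fun b hb => ?_)
    ((DenRing L _).add_mem ((DenRing L _).mul_mem (C_mem _) (X_pow_sum_mem d))
      ((DenRing L _).mul_mem (C_mem _) ((DenRing L _).add_mem ((DenRing L _).add_mem
        (key 0 _ _ h0) (key 1 _ _ h1)) (key 2 _ _ h2))))
  have h3 := generic_root f d (by omega) hf b hb e he
  have h4 : -(((2 : ℕ) : ℂ) + 1) / d = -((3 : ℕ) : ℂ) / d := by push_cast; ring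
  rw [← h4]
  exact h3

/-! ### one variable -/

theorem onePoly_ne {r : ℕ} {c : ℂ} (hc : c ≠ 0) (a : Fin r → ℂ) (m : Fin r → ℕ) :
    onePoly c a m ≠ 0 := by
  rw [onePoly]
  refine mul_ne_zero ?_ (Finset.prod_ne_zero_iff.2 fun i _ => pow_ne_zero _ ?_)
  · rw [Ne, C_eq_zero]
    exact hc
  · intro h0
    have h1 := congrArg (MvPolynomial.eval (fun _ : Fin 1 => a i + 1)) h0
    simp at h1

theorem one_minus {r : ℕ} (hr : 1 ≤ r) {c : ℂ} (hc : c ≠ 0) (a : Fin r → ℂ) (m : Fin r → ℕ)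
    (hm : ∀ i, 1 ≤ m i) : FM (fun _ : Fin 1 => onePoly c a m) (-1) 1 := by
  classical
  rw [fm_one]
  intro b hb
  obtain ⟨P, hP⟩ := Pool.Agent.Y229.isB_of_single (onePoly c a m) b hb
  refine minus_one (onePoly c a m) 1 (onePoly_ne hc a m) ?_ b P fun s => ?_
  · rintro ⟨q, hq⟩
    have h1 := congrArg (MvPolynomial.eval (fun _ : Fin 1 => a ⟨0, hr⟩)) hq
    rw [map_one, map_mul, onePoly, map_mul, map_prod, Finset.prod_eq_zero
      (Finset.mem_univ (⟨0, hr⟩ : Fin r)), mul_zero, zero_mul] at h1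
    · exact one_ne_zero h1
    · rw [map_pow, map_sub, eval_X, eval_C, sub_self, zero_pow (by have := hm ⟨0, hr⟩; omega)]
  · rw [one_mul]
    exact hP s

theorem aeval_onePoly {r : ℕ} (c : ℂ) (a : Fin r → ℂ) (m : Fin r → ℕ) (i : Fin r) :
    MvPolynomial.aeval (fun _ : Fin 1 => (MvPowerSeries.C (a i) + MvPowerSeries.X 0 :
      MvPowerSeries (Fin 1) ℂ)) (onePoly c a m) =
    MvPowerSeries.X 0 ^ m i * (MvPowerSeries.C c * ∏ j ∈ Finset.univ.erase i,
      (MvPowerSeries.C (a i) + MvPowerSeries.X 0 - MvPowerSeries.C (a j)) ^ m j) := by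
  classical
  have h1 : ∀ z : ℂ, (algebraMap ℂ (MvPowerSeries (Fin 1) ℂ)) z = MvPowerSeries.C z :=
    fun z => by rw [MvPowerSeries.algebraMap_apply]; rfl
  rw [onePoly, map_mul, map_prod, ← Finset.mul_prod_erase _ _ (Finset.mem_univ i)]
  have h2 : ∀ j : Fin r, MvPolynomial.aeval (fun _ : Fin 1 => (MvPowerSeries.C (a i) +
      MvPowerSeries.X 0 : MvPowerSeries (Fin 1) ℂ)) ((X 0 - C (a j)) ^ m j :
        MvPolynomial (Fin 1) ℂ) =
      (MvPowerSeries.C (a i) + MvPowerSeries.X 0 - MvPowerSeries.C (a j)) ^ m j := by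
    intro j
    rw [map_pow, map_sub, aeval_X, MvPolynomial.aeval_C, h1]
  rw [h2 i, MvPolynomial.aeval_C, h1, Finset.prod_congr rfl fun j _ => h2 j, add_sub_cancel_left]
  ring

theorem one_root {r : ℕ} {c : ℂ} (hc : c ≠ 0) (a : Fin r → ℂ) (ha : Function.Injective a)
    (m : Fin r → ℕ) (i : Fin r) (hm : 1 ≤ m i) :
    Forced (fun _ : Fin 1 => onePoly c a m) (-((1 : ℕ) : ℂ) / m i) := by
  classical
  intro b hb
  have h := rees_root (fun _ : Fin 1 => onePoly c a m) b hb 0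
    (fun _ => MvPowerSeries.C (a i) + MvPowerSeries.X 0) 0 (m i) 0 (by omega) 1
    (MvPowerSeries.C c * ∏ j ∈ Finset.univ.erase i,
      (MvPowerSeries.C (a i) + MvPowerSeries.X 0 - MvPowerSeries.C (a j)) ^ m j) 1 (by simp) ?_
    (by simp) ?_ 0 (fun j => ?_) ?_ 1 (by simp) (fun t ht => absurd (Subsingleton.elim t 0) ht)
  · simpa using h
  · rw [map_mul, MvPowerSeries.constantCoeff_C, map_prod]
    refine mul_ne_zero hc (Finset.prod_ne_zero_iff.2 fun j hj => ?_)
    rw [map_pow, map_sub, map_add, MvPowerSeries.constantCoeff_C, MvPowerSeries.constantCoeff_C,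
      MvPowerSeries.constantCoeff_X, add_zero]
    exact pow_ne_zero _ (sub_ne_zero.2 fun h => (Finset.mem_erase.1 hj).1 (ha h).symm)
  · rw [pow_zero, one_mul, Matrix.det_fin_one, Matrix.of_apply]
    simp
  · rw [aeval_onePoly]
    exact dvd_mul_right _ _
  · rw [aeval_onePoly]

theorem inv_one {r : ℕ} (hr : 1 ≤ r) {c : ℂ} (hc : c ≠ 0) (a : Fin r → ℂ)
    (ha : Function.Injective a) (m : Fin r → ℕ) (hm : ∀ i, 1 ≤ m i) :
    Inv L true ⟨Fin 1, Fin 1, fun _ => onePoly c a m⟩ (oneOrd L m : PowerSeries M)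
      (oneJet L c a m) := by
  classical
  have hqL := CqL (M := M) (L := L)
  obtain ⟨q, hq⟩ : ∃ q : PowerSeries M, q = PowerSeries.C ((L⁻¹ : Mˣ) : M) := ⟨_, rfl⟩
  obtain ⟨x, hx⟩ : ∃ x : PowerSeries M, x = PowerSeries.X := ⟨_, rfl⟩
  obtain ⟨l, hl⟩ : ∃ l : PowerSeries M, l = PowerSeries.C (L : M) := ⟨_, rfl⟩
  obtain ⟨P, hP⟩ : ∃ P : Fin r → PowerSeries M, ∀ i, P i =
    q * (x * (∑ j ∈ Finset.range (m i), x ^ j) * geo L (m i) 1) := ⟨_, fun _ => rfl⟩
  obtain ⟨Q, hQ⟩ : ∃ Q : Fin r → PowerSeries M, ∀ i, Q i =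
    (1 - q) * (q * x ^ m i * geo L (m i) 1) := ⟨_, fun _ => rfl⟩
  obtain ⟨R, hR⟩ : ∃ R : Fin r → PowerSeries M, ∀ i, R i =
    (m i : PowerSeries M) * (q * (q * x ^ m i * geo L (m i) 1)) := ⟨_, fun _ => rfl⟩
  rw [← hq, ← hl] at hqL
  have h1 : tail 1 (oneOrd L m : PowerSeries M) = 1 + ∑ i, P i := by
    have e : (1 : M) = (1 - (r : M) * ((L⁻¹ : Mˣ) : M)) + ∑ i : Fin r, ((L⁻¹ : Mˣ) : M) * 1 := by
      rw [Finset.sum_const, Finset.card_univ, Fintype.card_fin, nsmul_eq_mul]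
      ring
    conv_lhs => rw [e, oneOrd, tail_add, tail_C, tail_sum]
    rw [Finset.sum_congr rfl fun i _ => tail_C_mul (((L⁻¹ : Mˣ) : M)) 1 (mf L (m i) 1),
      Finset.sum_congr rfl fun i _ => by rw [tail_mf (m i) (hm i)], ← hq, ← hx]
    have e1 : ∀ i : Fin r, q * (1 + x * (∑ j ∈ Finset.range (m i), x ^ j) * geo L (m i) 1) =
        q + P i := fun i => by rw [hP]; ring
    rw [Finset.sum_congr rfl fun i _ => e1 i, Finset.sum_add_distrib, Finset.sum_const,
      Finset.card_univ, Fintype.card_fin, nsmul_eq_mul, map_sub, map_mul, map_one, map_natCast,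
      ← hq]
    ring
  have h2 : (oneOrd L m : PowerSeries M) = 1 - (r : PowerSeries M) * q + ∑ i, Q i := by
    rw [oneOrd, map_sub, map_mul, map_one, map_natCast, ← hq]
    congr 1
    refine Finset.sum_congr rfl fun i _ => ?_
    rw [hQ, mf_pos L (hm i), qq, pow_one, map_sub, map_one, ← hq, ← hx, ← hl]
    linear_combination (q * x ^ m i * geo L (m i) 1) * hqL
  have h3 : (oneJet L c a m : PowerSeries M) =
      PowerSeries.C (({z : ℂ | c * ∏ i, (z - a i) ^ m i = 1}.ncard : M) * ((L⁻¹ : Mˣ) : M)) +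
        ∑ i, R i := by
    rw [oneJet]
    congr 1
    refine Finset.sum_congr rfl fun i _ => ?_
    rw [hR, map_mul, map_natCast, ← hq, ← hx]
    ring
  have hmem : ∀ i, 2 ≤ m i → (geo L (m i) 1 : PowerSeries M) ∈
      DenRing L (KH (fun _ : Fin 1 => onePoly c a m)) := by
    intro i hi
    refine geo_mem (hm i) le_rfl ?_
    have h3 := one_root hc a ha m i (hm i)
    have h4 : -((1 : ℕ) : ℂ) / (m i : ℕ) ≠ -1 := by
      intro h5
      have h6 : ((m i : ℕ) : ℂ) ≠ 0 := Nat.cast_ne_zero.2 (by omega)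
      rw [div_eq_iff h6] at h5
      have h7 : ((m i : ℕ) : ℂ) = ((1 : ℕ) : ℂ) := by linear_combination h5
      have := Nat.cast_injective h7
      omega
    rw [KH, dl_eq, if_neg h4, add_zero]
    exact (fm_one _ _).2 h3
  have hone := one_minus hr hc a m hm
  have hred : PowerSeries.C (L : M) * (tail 1 (oneOrd L m : PowerSeries M) - oneOrd L m) -
      tail 1 (oneOrd L m) ∈ DenRing L (KH (fun _ : Fin 1 => onePoly c a m)) := by
    have e : PowerSeries.C (L : M) * (tail 1 (oneOrd L m : PowerSeries M) - oneOrd L m) -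
        tail 1 (oneOrd L m) = PowerSeries.C ((r : M) - 1) + ∑ i, (l * P i - l * Q i - P i) := by
      rw [h1, h2, map_sub, map_natCast, map_one, Finset.sum_sub_distrib, Finset.sum_sub_distrib,
        ← Finset.mul_sum, ← Finset.mul_sum, ← hl]
      linear_combination (r : PowerSeries M) * hqL
    rw [e]
    refine (DenRing L _).add_mem (C_mem _) (Subring.sum_mem _ fun i _ => ?_)
    have e1 : l * P i - l * Q i - P i = (1 - q) * (geo L (m i) 1 *
        (x * (∑ j ∈ Finset.range (m i), x ^ j) - x ^ m i)) := by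
      rw [hP, hQ]
      linear_combination (geo L (m i) 1 * (x * (∑ j ∈ Finset.range (m i), x ^ j) -
        (1 - q) * x ^ m i)) * hqL
    rw [e1, hq, hx]
    refine (DenRing L _).mul_mem ((DenRing L _).sub_mem (DenRing L _).one_mem (C_mem _)) ?_
    rcases Nat.lt_or_ge 1 (m i) with h4 | h4
    · exact (DenRing L _).mul_mem (hmem i h4) ((DenRing L _).sub_mem ((DenRing L _).mul_mem X_mem
        (X_pow_sum_mem _)) ((DenRing L _).pow_mem X_mem _))
    · have h5 : m i = 1 := le_antisymm h4 (hm i)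
      rw [h5, Finset.sum_range_one, pow_zero, mul_one, pow_one, sub_self, mul_zero]
      exact (DenRing L _).zero_mem
  refine ⟨inferInstanceAs (Finite (Fin 1)), ⟨(0 : Fin 1), onePoly_ne hc a m⟩,
    vol_of_red (A := ⟨Fin 1, Fin 1, fun _ => onePoly c a m⟩) hone hred, fun _ => hone,
    fun _ => hred, fun _ => ?_⟩
  have e : (oneJet L c a m : PowerSeries M) -
      PowerSeries.C ((L⁻¹ : Mˣ) : M) * tail 1 (oneOrd L m : PowerSeries M) =
      PowerSeries.C (({z : ℂ | c * ∏ i, (z - a i) ^ m i = 1}.ncard : M) * ((L⁻¹ : Mˣ) : M) -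
        ((L⁻¹ : Mˣ) : M)) + ∑ i, (R i - q * P i) := by
    rw [h1, h3, Finset.sum_sub_distrib, ← Finset.mul_sum, map_sub, ← hq]
    ring
  rw [e]
  refine (DenRing L _).add_mem (C_mem _) (Subring.sum_mem _ fun i _ => ?_)
  have e1 : R i - q * P i = q ^ 2 * (geo L (m i) 1 * ((m i : PowerSeries M) * x ^ m i -
      x * (∑ j ∈ Finset.range (m i), x ^ j))) := by
    rw [hR, hP]
    ring
  rw [e1, hq, hx]
  refine (DenRing L _).mul_mem ((DenRing L _).pow_mem (C_mem _) _) ?_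
  rcases Nat.lt_or_ge 1 (m i) with h4 | h4
  · refine (DenRing L _).mul_mem (hmem i h4) ((DenRing L _).sub_mem ((DenRing L _).mul_mem ?_
      ((DenRing L _).pow_mem X_mem _)) ((DenRing L _).mul_mem X_mem (X_pow_sum_mem _)))
    have : ((m i : ℕ) : PowerSeries M) = PowerSeries.C ((m i : ℕ) : M) := by rw [map_natCast]
    rw [this]
    exact C_mem _
  · have h5 : m i = 1 := le_antisymm h4 (hm i)
    rw [h5, Finset.sum_range_one, pow_zero, mul_one, pow_one, Nat.cast_one, one_mul, sub_self,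
      mul_zero]
    exact (DenRing L _).zero_mem

/-! ### the polynomials `∑ y_j f_j` -/

theorem tail_form (Z : PowerSeries M) :
    tail 1 (PowerSeries.C (1 - ((L⁻¹ : Mˣ) : M)) * Z * geo L 1 1) =
      (1 + PowerSeries.C (1 - ((L⁻¹ : Mˣ) : M)) * PowerSeries.X * (tail 1 Z - Z)) * geo L 1 1 := by
  symm
  apply eq_tail
  have h1 := tail_eq (1 : M) Z
  have h3 := geo11 (M := M) (L := L)
  rw [map_one] at h1 ⊢
  rw [map_sub, map_one]
  linear_combination ((1 - PowerSeries.C ((L⁻¹ : Mˣ) : M)) * PowerSeries.X * geo L 1 1) * h1 + h3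

theorem form_minus (A : Fam) (hA : ∃ j, A.f j ≠ 0) : FM (univFam A).f (-1) 1 := by
  have := fm_univ A hA (-1) 0 (fun b hb => by rw [pow_zero]; exact one_dvd _)
  rwa [dl_eq, if_pos rfl] at this

theorem KH_of_KF (A : Fam) (hA : ∃ j, A.f j ≠ 0) {a n : ℕ} (h : KF A.f a n) :
    KH (univFam A).f a n := by
  have h1 := fm_univ A hA (-(n : ℂ) / a) 1 ((fm_one _ _).2 h)
  exact h1

theorem sub_mem_of_tail {K : ℕ → ℕ → Prop} {Z : PowerSeries M} (h : tail 1 Z ∈ DenRing L K) :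
    tail 1 Z - Z ∈ DenRing L K := (DenRing L K).sub_mem h (mem_of_tail h)

theorem inv_form (A : Fam) (Z : PowerSeries M) (h : Inv L false A Z 0) :
    Inv L true (univFam A) (PowerSeries.C (1 - ((L⁻¹ : Mˣ) : M)) * Z * geo L 1 1)
      (PowerSeries.C ((L⁻¹ : Mˣ) : M) * Z * geo L 1 1) := by
  have hfA := h.fin
  have hone := form_minus A h.ne
  have h1 : tail 1 Z - Z ∈ DenRing L (KH (univFam A).f) :=
    denRing_mono (fun _ _ _ _ hK => KH_of_KF A h.ne hK) (sub_mem_of_tail h.vol)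
  have hG := geo11 (M := M) (L := L)
  have hqL := CqL (M := M) (L := L)
  have hred : PowerSeries.C (L : M) *
      (tail 1 (PowerSeries.C (1 - ((L⁻¹ : Mˣ) : M)) * Z * geo L 1 1) -
        PowerSeries.C (1 - ((L⁻¹ : Mˣ) : M)) * Z * geo L 1 1) -
      tail 1 (PowerSeries.C (1 - ((L⁻¹ : Mˣ) : M)) * Z * geo L 1 1) ∈
        DenRing L (KH (univFam A).f) := by
    have e : PowerSeries.C (L : M) *
      (tail 1 (PowerSeries.C (1 - ((L⁻¹ : Mˣ) : M)) * Z * geo L 1 1) -
        PowerSeries.C (1 - ((L⁻¹ : Mˣ) : M)) * Z * geo L 1 1) -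
      tail 1 (PowerSeries.C (1 - ((L⁻¹ : Mˣ) : M)) * Z * geo L 1 1) =
        PowerSeries.C ((L : M) - 1) * (tail 1 Z - Z) := by
      have h1 := tail_eq (1 : M) Z
      rw [map_one] at h1
      rw [tail_form, map_sub, map_sub, map_one]
      linear_combination ((PowerSeries.C (L : M) - 1) * (tail 1 Z - Z)) * hG -
        (geo L 1 1 * (PowerSeries.C (L : M) - 1)) * h1 + (geo L 1 1 * Z) * hqL
    rw [e]
    exact (DenRing L _).mul_mem (C_mem _) h1
  refine ⟨inferInstanceAs (Finite (A.ι ⊕ A.σ)), ⟨0, univFam_ne A h.ne⟩, vol_of_red hone hred,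
    fun _ => hone, fun _ => hred, fun _ => ?_⟩
  have e : PowerSeries.C ((L⁻¹ : Mˣ) : M) * Z * geo L 1 1 - PowerSeries.C ((L⁻¹ : Mˣ) : M) *
      tail 1 (PowerSeries.C (1 - ((L⁻¹ : Mˣ) : M)) * Z * geo L 1 1) =
        - (PowerSeries.C ((L⁻¹ : Mˣ) : M) * (tail 1 Z - Z)) := by
    have h1 := tail_eq (1 : M) Z
    rw [map_one] at h1
    rw [tail_form, map_sub, map_one]
    linear_combination (-(PowerSeries.C ((L⁻¹ : Mˣ) : M) * (tail 1 Z - Z))) * hG +
      (PowerSeries.C ((L⁻¹ : Mˣ) : M) * geo L 1 1) * h1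
  rw [e]
  exact (DenRing L _).neg_mem ((DenRing L _).mul_mem (C_mem _) h1)

/-! ### Thom-Sebastiani sums -/

theorem volGe_eq (Z : PowerSeries M) (e : ℕ) : volGe Z e = PowerSeries.coeff e (tail 1 Z) := by
  rw [volGe, coeff_tail]

theorem volGe_succ (Z : PowerSeries M) (e : ℕ) :
    volGe Z (e + 1) = volGe Z e - PowerSeries.coeff e Z := by
  rw [volGe, volGe, Finset.sum_range_succ]
  ring

theorem volGe_succ' (Z : PowerSeries M) (e : ℕ) :
    PowerSeries.coeff e (tail 1 Z - Z) = volGe Z (e + 1) := by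
  rw [map_sub, ← volGe_eq, volGe_succ]

theorem tail_ts (Z W : PowerSeries M) (e : ℕ) :
    PowerSeries.coeff e (tail 1 (tsOrd L Z W)) = tsGe L Z W e := by
  rw [coeff_tail]
  have h : ∀ e : ℕ, ∑ k ∈ Finset.range e, PowerSeries.coeff k (tsOrd L Z W) =
      1 - tsGe L Z W e := by
    intro e
    induction e with
    | zero => simp [tsGe, volGe]
    | succ e ih =>
      rw [Finset.sum_range_succ, ih, tsOrd, PowerSeries.coeff_mk]
      ring
  rw [h]
  ring

theorem q_pow (n : ℕ) : (((L⁻¹ ^ (n + 1) : Mˣ) : M)) = ((L⁻¹ : Mˣ) : M) * ((L⁻¹ ^ n : Mˣ) : M) := by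
  rw [pow_succ', Units.val_mul]

theorem sum_shift (Z W : PowerSeries M) (e : ℕ) :
    ∑ k ∈ Finset.range (e + 1),
        PowerSeries.coeff k Z * volGe W k * ((L⁻¹ ^ (e + 1 - k) : Mˣ) : M) =
      ((L⁻¹ : Mˣ) : M) * (∑ k ∈ Finset.range e,
        PowerSeries.coeff k Z * volGe W k * ((L⁻¹ ^ (e - k) : Mˣ) : M) +
          PowerSeries.coeff e Z * volGe W e) := by
  rw [Finset.sum_range_succ, mul_add, Finset.mul_sum]
  congr 1
  · refine Finset.sum_congr rfl fun k hk => ?_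
    have h1 : e + 1 - k = (e - k) + 1 := by
      have := Finset.mem_range.1 hk
      omega
    rw [h1, q_pow]
    ring
  · rw [Nat.add_sub_cancel_left, pow_one]
    ring

theorem red_ts (Z W : PowerSeries M) :
    PowerSeries.C (L : M) * (tail 1 (tsOrd L Z W) - tsOrd L Z W) - tail 1 (tsOrd L Z W) =
      had (tail 1 Z - Z) (PowerSeries.C (L : M) * (tail 1 W - W) - tail 1 W) := by
  ext e
  rw [coeff_had, volGe_succ', map_sub, map_sub, PowerSeries.coeff_C_mul, PowerSeries.coeff_C_mul,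
    volGe_succ', tail_ts, volGe_succ', ← volGe_eq]
  have h1 : volGe (tsOrd L Z W) (e + 1) = tsGe L Z W (e + 1) := by
    rw [volGe_eq, tail_ts]
  rw [h1, tsGe, tsGe, sum_shift, volGe_succ Z e]
  have h2 : (L : M) * ((L⁻¹ : Mˣ) : M) = 1 := by
    rw [← Units.val_mul, mul_inv_cancel, Units.val_one]
  linear_combination (∑ k ∈ Finset.range e,
        PowerSeries.coeff k Z * volGe W k * ((L⁻¹ ^ (e - k) : Mˣ) : M) +
          PowerSeries.coeff e Z * volGe W e) * h2

theorem jet_ts (Z W J : PowerSeries M) :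
    tsJet L Z W J - PowerSeries.C ((L⁻¹ : Mˣ) : M) * tail 1 (tsOrd L Z W) =
      had (tail 1 Z - Z) (J - PowerSeries.C ((L⁻¹ : Mˣ) : M) * tail 1 W) := by
  ext e
  rw [coeff_had, volGe_succ', map_sub, map_sub, PowerSeries.coeff_C_mul, PowerSeries.coeff_C_mul,
    tail_ts, ← volGe_eq, tsJet, PowerSeries.coeff_mk, sum_shift, tsGe, volGe_succ Z e]
  ring

/-- the sum of the exponents of two denominators -/
theorem add_exp {a n a' n' l : ℕ} (ha : 1 ≤ a) (ha' : 1 ≤ a') (hl : 1 ≤ l) (hal : a ∣ l)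
    (hal' : a' ∣ l) : (-(n : ℂ) / a) + (-(n' : ℂ) / a') =
      -((n * (l / a) + n' * (l / a') : ℕ) : ℂ) / l := by
  obtain ⟨k, rfl⟩ := hal
  obtain ⟨k', hk'⟩ := hal'
  have e1 : a * k / a = k := Nat.mul_div_cancel_left k (by omega)
  have e2 : a * k / a' = k' := by rw [hk']; exact Nat.mul_div_cancel_left k' (by omega)
  rw [e1, e2]
  have ha0 : (a : ℂ) ≠ 0 := Nat.cast_ne_zero.2 (by omega)
  have ha0' : (a' : ℂ) ≠ 0 := Nat.cast_ne_zero.2 (by omega)
  have hk0 : ((a * k : ℕ) : ℂ) ≠ 0 := Nat.cast_ne_zero.2 (by omega)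
  have hk1 : (a : ℂ) * k = a' * k' := by exact_mod_cast hk'
  push_cast at hk0 ⊢
  rw [div_add_div _ _ ha0 ha0', div_eq_div_iff (mul_ne_zero ha0 ha0') hk0]
  linear_combination (-(a : ℂ) * n') * hk1

theorem ts_pair (A : Fam) (τ : Type) (g : MvPolynomial τ ℂ) (hA : ∃ j, A.f j ≠ 0) (hg : g ≠ 0)
    {a n a' n' l : ℕ} (ha : 1 ≤ a) (ha' : 1 ≤ a') (hl : 1 ≤ l) (hal : a ∣ l) (hal' : a' ∣ l)
    (hK : KF A.f a n) (hK' : KH (fun _ : Fin 1 => g) a' n') :
    KH (tsFam A τ g).f l (n * (l / a) + n' * (l / a')) := by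
  rw [KH, ← add_exp ha ha' hl hal hal']
  intro b hb
  obtain ⟨b', rfl, h7⟩ := fm_ts A τ g hA hg b hb
  have h8 := h7 _ _ 1 1 le_rfl le_rfl ((fm_one _ _).2 hK) hK'
  rw [dl_eq]
  split_ifs with h9
  · rw [pow_succ', pow_one]
    rw [Nat.add_sub_cancel, pow_one] at h8
    refine mul_dvd_mul ?_ h8
    rw [h9, map_neg, sub_neg_eq_add, map_one]
  · exact h8.mul_left _

theorem ts_minus (A : Fam) (τ : Type) (g : MvPolynomial τ ℂ) (hA : ∃ j, A.f j ≠ 0) (hg : g ≠ 0) :
    FM (tsFam A τ g).f (-1) 1 := by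
  intro b hb
  obtain ⟨b', rfl, -⟩ := fm_ts A τ g hA hg b hb
  rw [pow_one, map_neg, sub_neg_eq_add, map_one]
  exact dvd_mul_right _ _

theorem inv_ts (A : Fam) (Z : PowerSeries M) (τ : Type) (g : MvPolynomial τ ℂ)
    (W J : PowerSeries M) (h : Inv L false A Z 0)
    (h' : Inv L true ⟨τ, Fin 1, fun _ => g⟩ W J) :
    Inv L true (tsFam A τ g) (tsOrd L Z W) (tsJet L Z W J) := by
  have hfA := h.fin
  have hfg := h'.fin
  have hg0 : g ≠ 0 := by
    obtain ⟨j, hj⟩ := h'.ne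
    exact hj
  have hone := ts_minus A τ g h.ne hg0
  have h1 := sub_mem_of_tail h.vol
  have hred : PowerSeries.C (L : M) * (tail 1 (tsOrd L Z W) - tsOrd L Z W) -
      tail 1 (tsOrd L Z W) ∈ DenRing L (KH (tsFam A τ g).f) := by
    rw [red_ts]
    exact had_mem h1 (h'.red rfl) fun a n a' n' l ha hn hK ha' hn' hK' hl hal hal' =>
      ts_pair A τ g h.ne hg0 ha ha' hl hal hal' hK hK'
  refine ⟨inferInstanceAs (Finite ((A.ι ⊕ A.σ) ⊕ τ)), ⟨0, tsFam_ne A τ g hg0⟩,
    vol_of_red hone hred, fun _ => hone, fun _ => hred, fun _ => ?_⟩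
  rw [jet_ts]
  exact had_mem h1 (h'.jet rfl) fun a n a' n' l ha hn hK ha' hn' hK' hl hal hal' =>
    ts_pair A τ g h.ne hg0 ha ha' hl hal hal' hK hK'

/-! ### products -/

theorem mul_pair (A B : Fam) (hfin : Finite A.σ) (hA : ∃ j, A.f j ≠ 0) (hB : ∃ j, B.f j ≠ 0)
    (h1 : FM A.f (-1) 1) (h2 : FM B.f (-1) 1) {a n : ℕ} (h : KF A.f a n ∨ KF B.f a n) :
    KH (A.mul B).f a n := by
  rw [KH, dl_eq]
  split_ifs with h3
  · rw [h3]
    exact fm_mul A B hfin hA hB h1 h2
  · rcases h with h | h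
    · exact fm_mulL A B _ _ hB ((fm_one _ _).2 h)
    · exact fm_mulR A B _ _ hA ((fm_one _ _).2 h)

theorem mul_ne' (A B : Fam) (hA : ∃ j, A.f j ≠ 0) (hB : ∃ j, B.f j ≠ 0) :
    ∃ j, (A.mul B).f j ≠ 0 := by
  obtain ⟨j, hj⟩ := hA
  obtain ⟨k, hk⟩ := hB
  refine ⟨(j, k), ?_⟩
  change (MvPolynomial.rename Sum.inl (A.f j) * MvPolynomial.rename Sum.inr (B.f k) :
    MvPolynomial (A.σ ⊕ B.σ) ℂ) ≠ 0
  refine mul_ne_zero ?_ ?_
  · rw [Ne, map_eq_zero_iff _ (MvPolynomial.rename_injective _ Sum.inl_injective)]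
    exact hj
  · rw [Ne, map_eq_zero_iff _ (MvPolynomial.rename_injective _ Sum.inr_injective)]
    exact hk

theorem inv_formMul (A : Fam) (Z : PowerSeries M) (B : Fam) (W J : PowerSeries M)
    (h : Inv L false A Z 0) (h' : Inv L true B W J) :
    Inv L true ((univFam A).mul B) (PowerSeries.C (1 - ((L⁻¹ : Mˣ) : M)) * Z * geo L 1 1 * W)
      (PowerSeries.C ((L⁻¹ : Mˣ) : M) * Z * geo L 1 1 * W) := by
  have hf := inv_form A Z h
  have hfin := hf.fin
  have hfin' := h'.fin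
  have hone := form_minus A h.ne
  have hpair : ∀ a n : ℕ, KF (univFam A).f a n ∨ KF B.f a n → KH ((univFam A).mul B).f a n :=
    fun a n => mul_pair (univFam A) B hfin hf.ne h'.ne hone (h'.one rfl)
  have hF : ∀ {Y : PowerSeries M}, Y ∈ DenRing L (KF (univFam A).f) →
      Y ∈ DenRing L (KH ((univFam A).mul B).f) :=
    fun h => denRing_mono (fun a n _ _ hK => hpair a n (Or.inl hK)) h
  have hB : ∀ {Y : PowerSeries M}, Y ∈ DenRing L (KF B.f) →
      Y ∈ DenRing L (KH ((univFam A).mul B).f) :=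
    fun h => denRing_mono (fun a n _ _ hK => hpair a n (Or.inr hK)) h
  have hvol : tail 1 (PowerSeries.C (1 - ((L⁻¹ : Mˣ) : M)) * Z * geo L 1 1 * W) ∈
      DenRing L (KH ((univFam A).mul B).f) := tail_mul_mem (hF hf.vol) (hB h'.vol)
  have hone' : FM ((univFam A).mul B).f (-1) 1 := fm_mulL (univFam A) B _ _ h'.ne hone
  have hZ : Z ∈ DenRing L (KH ((univFam A).mul B).f) :=
    hF (mem_KF (denRing_mono (fun _ _ _ _ hK => KH_of_KF A h.ne hK) (mem_of_tail h.vol)))
  have hG : (geo L 1 1 : PowerSeries M) ∈ DenRing L (KH ((univFam A).mul B).f) := by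
    refine hF (geo_mem le_rfl le_rfl ?_)
    rw [KF, Nat.cast_one, div_one]
    exact (fm_one _ _).1 hone
  refine ⟨inferInstanceAs (Finite ((A.ι ⊕ A.σ) ⊕ B.σ)), mul_ne' _ _ hf.ne h'.ne, mem_KF hvol,
    fun _ => hone', fun _ => ?_, fun _ => ?_⟩
  · exact (DenRing L _).sub_mem ((DenRing L _).mul_mem (C_mem _)
      ((DenRing L _).sub_mem hvol (mem_of_tail hvol))) hvol
  · exact (DenRing L _).sub_mem ((DenRing L _).mul_mem ((DenRing L _).mul_mem
      ((DenRing L _).mul_mem (C_mem _) hZ) hG) (hB (mem_of_tail h'.vol)))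
      ((DenRing L _).mul_mem (C_mem _) hvol)

/-! ### the induction -/

theorem cls_inv (c : Bool) (A : Fam) (Z J : PowerSeries M) (h : Cls L c A Z J) :
    Inv L c A Z J := by
  classical
  induction h with
  | plane r f hf Z hZ =>
    exact ⟨inferInstanceAs (Finite (Fin 2)), hf, plane_tail f Z hZ, fun h => absurd h (by simp),
      fun h => absurd h (by simp), fun h => absurd h (by simp)⟩
  | cone r d hd f hf e he Z hZ =>
    refine ⟨inferInstanceAs (Finite (Fin 3)), ?_, cone_tail hd f hf e he Z hZ,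
      fun h => absurd h (by simp), fun h => absurd h (by simp), fun h => absurd h (by simp)⟩
    by_contra h0
    push Not at h0
    apply he
    refine Matrix.det_eq_zero_of_column_eq_zero 0 fun s => ?_
    have h1 : f (e 0) = 0 := h0 (e 0)
    rw [Matrix.of_apply, h1, map_zero]
  | sum A B Z W hA hB ihA ihB =>
    have hfA := ihA.fin
    have hfB := ihB.fin
    refine ⟨inferInstanceAs (Finite (A.σ ⊕ B.σ)), ?_, ?_, fun h => absurd h (by simp),
      fun h => absurd h (by simp), fun h => absurd h (by simp)⟩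
    · obtain ⟨j, hj⟩ := ihA.ne
      refine ⟨Sum.inl j, ?_⟩
      change rename Sum.inl (A.f j) ≠ 0
      rw [Ne, map_eq_zero_iff _ (rename_injective _ Sum.inl_injective)]
      exact hj
    · rw [tail_min]
      refine had_mem ihA.vol ihB.vol fun a n a' n' l ha hn hK ha' hn' hK' hl hal hal' => ?_
      have h1 := forced_sum A.f B.f _ _ hK hK'
      rw [add_exp ha ha' hl hal hal'] at h1
      exact h1
  | mul A B Z W hA hB ihA ihB =>
    have hfA := ihA.fin
    have hfB := ihB.fin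
    refine ⟨inferInstanceAs (Finite (A.σ ⊕ B.σ)), mul_ne' A B ihA.ne ihB.ne, ?_,
      fun h => absurd h (by simp), fun h => absurd h (by simp), fun h => absurd h (by simp)⟩
    refine tail_mul_mem (denRing_mono (fun a n _ _ h => ?_) ihA.vol)
      (denRing_mono (fun a n _ _ h => ?_) ihB.vol)
    · exact fun b hb => h b (functionalEq_mul A.f B.f ihB.ne b hb)
    · exact fun b hb => h b (functionalEq_mul' A.f B.f ihA.ne b hb)
  | hyp A Z J hA ihA =>
    exact ⟨ihA.fin, ihA.ne, ihA.vol, fun h => absurd h (by simp), fun h => absurd h (by simp),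
      fun h => absurd h (by simp)⟩
  | one r hr c hc a ha m hm => exact inv_one hr hc a ha m hm
  | form A Z hA ihA => exact inv_form A Z ihA
  | ts A Z τ g W J hA hg ihA ihg => exact inv_ts A Z τ g W J ihA ihg
  | formMul A Z B W J hA hB ihA ihB => exact inv_formMul A Z B W J ihA ihB
  | equiv c A B i k h Z J hA ihA =>
    have hf := ihA.fin
    have hF : ∀ {Y : PowerSeries M}, Y ∈ DenRing L (KF A.f) → Y ∈ DenRing L (KF B.f) :=
      fun h' => denRing_mono (fun a n _ _ hK => (fm_one _ _).1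
        (fm_equiv A B i k h _ _ ((fm_one _ _).2 hK))) h'
    have hH : ∀ {Y : PowerSeries M}, Y ∈ DenRing L (KH A.f) → Y ∈ DenRing L (KH B.f) :=
      fun h' => denRing_mono (fun a n _ _ hK => fm_equiv A B i k h _ _ hK) h'
    refine ⟨Finite.of_equiv A.σ i, ?_, hF ihA.vol, fun h0 => fm_equiv A B i k h _ _ (ihA.one h0),
      fun h0 => hH (ihA.red h0), fun h0 => hH (ihA.jet h0)⟩
    obtain ⟨j, hj⟩ := ihA.ne
    refine ⟨k j, ?_⟩
    rw [h, Ne, map_eq_zero_iff _ (MvPolynomial.rename_injective _ i.injective)]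
    exact hj

/-- **The denominators of the two series of a hypersurface of the class.** -/
theorem cls_main (σ : Type) (F : MvPolynomial σ ℂ) (Z J : PowerSeries M)
    (h : Cls L true ⟨σ, Fin 1, fun _ => F⟩ Z J) (b : Polynomial ℂ)
    (hb : Pool.Agent.H628R4.TP.IsBFunction F b) :
    Z ∈ DenRing L (RootPair b) ∧ J ∈ DenRing L (RootPair b) := by
  have hI := cls_inv true _ Z J h
  have hb' := single_of_isB F b hb
  have h1 : ∀ {Y : PowerSeries M}, Y ∈ DenRing L (KF (fun _ : Fin 1 => F)) →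
      Y ∈ DenRing L (RootPair b) := fun h => denRing_mono (fun a n _ _ hK => hK b hb') h
  refine ⟨h1 (mem_of_tail hI.vol), h1 ?_⟩
  have h2 := (DenRing L _).add_mem (mem_KF (hI.jet rfl))
    ((DenRing L _).mul_mem (C_mem ((L⁻¹ : Mˣ) : M)) hI.vol)
  rwa [sub_add_cancel] at h2

end Pool.Agent.T2H42.TSM
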